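import Pool.Agent.W680.WH.Stm

/-!
# Project WHH: the commutant of `T`
-/

set_option autoImplicit false

open scoped ComplexConjugate InnerProductSpace
open ContinuousLinearMap Filter

namespace Pool.Agent.W925.WH.Com

open Pool.Agent.W680.WH

/-- the coefficients of `X` -/
noncomputable def xc (m : ℤ) : ℂ := -((16 * (m : ℂ) + 8) / ((4 * (m : ℂ) + 1) * (4 * (m : ℂ) + 3)))

lemma ne1 (m : ℤ) : (4 * (m : ℂ) + 1) ≠ 0 := by
  intro h
  have h' : ((4 * m + 1 : ℤ) : ℂ) = 0 := by push_cast; exact h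
  have : (4 * m + 1 : ℤ) = 0 := by exact_mod_cast h'
  omega

lemma ne3 (m : ℤ) : (4 * (m : ℂ) + 3) ≠ 0 := by
  intro h
  have h' : ((4 * m + 3 : ℤ) : ℂ) = 0 := by push_cast; exact h
  have : (4 * m + 3 : ℤ) = 0 := by exact_mod_cast h'
  omega

lemma xc_eq (m : ℤ) : xc m = -(2 / (4 * (m : ℂ) + 1)) - 2 / (4 * (m : ℂ) + 3) := by
  unfold xc
  have h1 := ne1 m
  have h3 := ne3 m
  have e : (16 * (m : ℂ) + 8) / ((4 * (m : ℂ) + 1) * (4 * (m : ℂ) + 3)) =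
      2 / (4 * (m : ℂ) + 1) + 2 / (4 * (m : ℂ) + 3) := by
    rw [div_add_div _ _ h1 h3]
    congr 1
    ring
  rw [e]
  ring

lemma xc_bd (m : ℤ) : ‖xc m‖ ≤ 4 := by
  have key : ∀ j : ℤ, j ≠ 0 → ‖(2 : ℂ) / (j : ℂ)‖ ≤ 2 := by
    intro j hj
    rw [norm_div]
    have h1 : (1 : ℝ) ≤ ‖(j : ℂ)‖ := by
      rw [Complex.norm_intCast]
      exact_mod_cast Int.one_le_abs hj
    have h2 : ‖(2 : ℂ)‖ = 2 := by simp
    rw [h2, div_le_iff₀ (by linarith)]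
    linarith
  have h1 := key (4 * m + 1) (by omega)
  have h3 := key (4 * m + 3) (by omega)
  push_cast at h1 h3
  rw [xc_eq]
  calc ‖-(2 / (4 * (m : ℂ) + 1)) - 2 / (4 * (m : ℂ) + 3)‖
      ≤ ‖-(2 / (4 * (m : ℂ) + 1))‖ + ‖2 / (4 * (m : ℂ) + 3)‖ := norm_sub_le _ _
    _ ≤ 4 := by rw [norm_neg]; linarith

/-- shifted sums -/
noncomputable def SN (k : ℤ) (N : ℕ) : ℂ := ∑ n ∈ Finset.range N, xc (n + k)

lemma SN_succ (k : ℤ) (N : ℕ) : SN (k + 1) N - SN k N = xc (N + k) - xc k := by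
  unfold SN
  induction N with
  | zero => simp
  | succ N ih =>
    rw [Finset.sum_range_succ, Finset.sum_range_succ]
    have e : ((N : ℤ) + (k + 1)) = ((N + 1 : ℕ) : ℤ) + k := by push_cast; ring
    rw [e]
    linear_combination ih

lemma SN_bd (k : ℤ) : ∃ C : ℝ, ∀ N, ‖SN k N - SN 0 N‖ ≤ C := by
  induction k using Int.induction_on with
  | zero => exact ⟨0, fun N => by simp⟩
  | succ k ih =>
    obtain ⟨C, hC⟩ := ih
    refine ⟨C + 8, fun N => ?_⟩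
    have h := SN_succ k N
    have e : SN (k + 1) N - SN 0 N = (xc (N + k) - xc k) + (SN k N - SN 0 N) := by
      linear_combination h
    rw [e]
    have h1 := norm_add_le (xc (N + k) - xc k) (SN k N - SN 0 N)
    have h2 := norm_sub_le (xc (N + k)) (xc k)
    have h3 := xc_bd (N + k)
    have h4 := xc_bd k
    have h5 := hC N
    linarith
  | pred k ih =>
    obtain ⟨C, hC⟩ := ih
    refine ⟨C + 8, fun N => ?_⟩
    have h := SN_succ (-k - 1) N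
    rw [show (-(k : ℤ) - 1 + 1) = -k by ring] at h
    have e : SN (-k - 1) N - SN 0 N = -(xc (N + (-k - 1)) - xc (-k - 1)) + (SN (-k) N - SN 0 N) := by
      linear_combination -h
    rw [e]
    have h1 := norm_add_le (-(xc (N + (-k - 1)) - xc (-k - 1))) (SN (-k) N - SN 0 N)
    rw [norm_neg] at h1
    have h2 := norm_sub_le (xc (N + (-k - 1))) (xc (-k - 1))
    have h3 := xc_bd (N + (-k - 1))
    have h4 := xc_bd (-k - 1)
    have h5 := hC N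
    linarith

lemma xc_re (n : ℕ) : 1 / ((n : ℝ) + 1) ≤ -(xc n).re := by
  have e : xc n = ((-(2 / (4 * (n : ℝ) + 1)) - 2 / (4 * (n : ℝ) + 3) : ℝ) : ℂ) := by
    rw [xc_eq]
    push_cast
    ring
  rw [e, Complex.ofReal_re]
  have h1 : (0 : ℝ) < 4 * n + 1 := by positivity
  have h3 : (0 : ℝ) < 4 * n + 3 := by positivity
  have h0 : (0 : ℝ) < n + 1 := by positivity
  have a1 : 1 / ((n : ℝ) + 1) ≤ 4 / (4 * n + 3) := by
    rw [div_le_div_iff₀ h0 h3]; linarith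
  have a2 : 2 / (4 * (n : ℝ) + 3) ≤ 2 / (4 * n + 1) := by
    rw [div_le_div_iff₀ h3 h1]; linarith
  have a3 : 4 / (4 * (n : ℝ) + 3) = 2 / (4 * (n : ℝ) + 3) + 2 / (4 * (n : ℝ) + 3) := by ring
  linarith

lemma SN_unb : ∀ M : ℝ, ∃ N, M < ‖SN 0 N‖ := by
  intro M
  obtain ⟨N, hN⟩ := (Filter.tendsto_atTop.1 Real.tendsto_sum_range_one_div_nat_succ_atTop
    (M + 1)).exists
  refine ⟨N, ?_⟩
  have h1 : ∑ i ∈ Finset.range N, 1 / ((i : ℝ) + 1) ≤ -(SN 0 N).re := by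
    unfold SN
    rw [Complex.re_sum, ← Finset.sum_neg_distrib]
    refine Finset.sum_le_sum fun i _ => ?_
    rw [add_zero]
    exact xc_re i
  have h2 : -(SN 0 N).re ≤ ‖SN 0 N‖ := by
    have := Complex.abs_re_le_norm (SN 0 N)
    have := neg_abs_le (SN 0 N).re
    linarith
  linarith

section
variable (hA : S_OPA) (hC : S_OPC)
include hA hC

lemma co_neg (f : E) (n : ℤ) : co (-f) n = -co f n := by
  have h := hC.2.2.2.2.2.1 (-1) f n
  rw [neg_one_smul] at h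
  rw [h]; ring

lemma co_Q (f : E) (n : ℤ) : co (Q f) n = (2 / (4 * (n : ℂ) - 1)) * co f (n - 1) := by
  have e : Q f = Z f + -(Z2 f) := by
    show (Z - Z2) f = _
    rw [sub_apply, sub_eq_add_neg]
  rw [e, hC.2.2.2.2.1, co_neg hA hC, hC.2.1, hC.2.2.2.1]
  have h3 := ne3 (n - 1)
  push_cast at h3
  have h : (4 * (n : ℂ) - 1) ≠ 0 := by
    intro h; apply h3; linear_combination h
  field_simp
  ring

lemma co_Zs (f : E) (n : ℤ) :
    co (Zs f) n = ((4 * (n : ℂ) + 3) / (4 * (n : ℂ) + 1)) * co f (n + 1) := by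
  have h := hC.2.2.2.1 (Zs f) (n + 1)
  have e : Z2 (Zs f) = f := by
    have := hA.1.2.2.1
    calc Z2 (Zs f) = (Z2 * Zs) f := rfl
      _ = f := by rw [this]; rfl
  rw [e, show n + 1 - 1 = n by ring] at h
  rw [h]
  have h1 := ne1 n
  have h3 := ne3 n
  push_cast
  have e1 : (4 * ((n : ℂ) + 1) - 3) = 4 * n + 1 := by ring
  have e2 : (4 * ((n : ℂ) + 1) - 1) = 4 * n + 3 := by ring
  rw [e1, e2]
  field_simp

lemma co_X (f : E) (n : ℤ) : co (X f) n = xc (n - 1) * co f (n - 1) := by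
  have e : X f = -((2 : ℂ) • Q f + Q (Zs (Q f))) := rfl
  rw [e, co_neg hA hC, hC.2.2.2.2.1, hC.2.2.2.2.2.1, co_Q hA hC (Zs (Q f)), co_Zs hA hC,
    show n - 1 + 1 = n by ring, co_Q hA hC f]
  unfold xc
  have h1 := ne1 (n - 1)
  have h3 := ne3 (n - 1)
  push_cast at h1 h3 ⊢
  have g1 : (4 * ((n : ℂ) - 1) + 1) = 4 * n - 3 := by ring
  have g3 : (4 * ((n : ℂ) - 1) + 3) = 4 * n - 1 := by ring
  rw [g1] at h1 ⊢
  rw [g3] at h3 ⊢
  field_simp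
  ring

lemma co_shift (A : E →L[ℂ] E) (h : A * Z = Z * A) (k : ℤ) (n : ℕ) :
    co (A (eb n)) (n + k) = co (A (eb 0)) k := by
  induction n with
  | zero => simp
  | succ n ih =>
    have e : A (eb ((n + 1 : ℕ) : ℤ)) = Z (A (eb n)) := by
      have h1 := hA.2.2.1.1 n
      push_cast
      rw [← h1]
      exact congrArg (fun L : E →L[ℂ] E => L (eb n)) h
    rw [e, hC.2.1, ← ih]
    congr 1
    push_cast
    ring

lemma norm_eb (n : ℤ) : ‖eb n‖ ^ 2 = om n := by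
  have h := hC.2.2.2.2.2.2.2.2.2.1 n (eb n)
  rw [hC.1, if_pos rfl, mul_one, inner_self_eq_norm_sq_to_K] at h
  have h' : ((‖eb n‖ ^ 2 : ℝ) : ℂ) = ((om n : ℝ) : ℂ) := by
    rw [← h]; push_cast; rfl
  exact_mod_cast h'

lemma co_bd (f : E) (n : ℤ) : om n * ‖co f n‖ ^ 2 ≤ ‖f‖ ^ 2 := by
  rw [hC.2.2.2.2.2.2.1 f]
  exact (hC.2.2.2.2.2.2.2.1 f).le_tsum n (fun m _ => by have := om_pos m; positivity)

lemma eps_bd (hO : S_OM) (B : E →L[ℂ] E) (k : ℤ) (n : ℤ) :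
    ‖co (B (eb n)) (n + k)‖ ^ 2 ≤ ‖B‖ ^ 2 * om (-k) := by
  have h1 := co_bd hA hC (B (eb n)) (n + k)
  have h2 : ‖B (eb n)‖ ^ 2 ≤ ‖B‖ ^ 2 * om n := by
    rw [← norm_eb hA hC n, ← mul_pow]
    exact pow_le_pow_left₀ (norm_nonneg _) (B.le_opNorm _) 2
  have h3 : om n ≤ om (n + k) * om (-k) := by
    have := hO.2.2.1 (n + k) (-k)
    rwa [show n + k + -k = n by ring] at this
  have h4 := om_pos (n + k)
  have h5 : om (n + k) * ‖co (B (eb n)) (n + k)‖ ^ 2 ≤ om (n + k) * (‖B‖ ^ 2 * om (-k)) := by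
    calc om (n + k) * ‖co (B (eb n)) (n + k)‖ ^ 2 ≤ ‖B‖ ^ 2 * om n := h1.trans h2
      _ ≤ ‖B‖ ^ 2 * (om (n + k) * om (-k)) := by
        exact mul_le_mul_of_nonneg_left h3 (by positivity)
      _ = om (n + k) * (‖B‖ ^ 2 * om (-k)) := by ring
  exact le_of_mul_le_mul_left h5 h4

lemma diag_eq (hO : S_OM) (A A1 B : E →L[ℂ] E) (h1 : A * Z = Z * A) (h2 : A1 * Z = Z * A1)
    (h3 : A * X + B * Z = Z * B + X * A1) : A = A1 := by
  apply hC.2.2.2.2.2.2.2.2.2.2.2.2.2.2.2.2.2 A A1 h1 h2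
  apply hC.2.2.2.2.2.2.2.2.1
  intro k
  by_contra hne
  -- the recursion
  have hrec : ∀ n : ℕ, co (B (eb ((n + 1 : ℕ) : ℤ))) (((n + 1 : ℕ) : ℤ) + k) -
      co (B (eb n)) (n + k) = co (A1 (eb 0)) k * xc (n + k) - co (A (eb 0)) k * xc n := by
    intro n
    have e := congrArg (fun L : E →L[ℂ] E => co (L (eb n)) (((n + 1 : ℕ) : ℤ) + k)) h3
    have e1 : (A * X + B * Z) (eb n) = A (X (eb n)) + B (Z (eb n)) := rfl
    have e2 : (Z * B + X * A1) (eb n) = Z (B (eb n)) + X (A1 (eb n)) := rfl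
    simp only [e1, e2] at e
    rw [hC.2.2.2.2.1, hC.2.2.2.2.1, hA.2.2.1.1, hC.2.1, co_X hA hC, hA.2.2.1.2.2.2.2.2,
      map_smul, hC.2.2.2.2.2.1] at e
    have c1 : ((n + 1 : ℕ) : ℤ) = (n : ℤ) + 1 := by push_cast; ring
    have c2 : ((n + 1 : ℕ) : ℤ) + k - 1 = n + k := by push_cast; ring
    rw [c2, co_shift hA hC A1 h2] at e
    have c3 : co (A (eb ((n : ℤ) + 1))) (((n + 1 : ℕ) : ℤ) + k) = co (A (eb 0)) k := by
      rw [← c1]; exact co_shift hA hC A h1 k (n + 1)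
    rw [c3] at e
    rw [c1] at e ⊢
    have c4 : xc n = -((16 * ((n : ℤ) : ℂ) + 8) / ((4 * ((n : ℤ) : ℂ) + 1) *
      (4 * ((n : ℤ) : ℂ) + 3))) := rfl
    rw [← c4] at e
    linear_combination e
  -- sum
  have sm : ∀ N : ℕ, co (B (eb N)) (N + k) - co (B (eb 0)) k =
      co (A1 (eb 0)) k * SN k N - co (A (eb 0)) k * SN 0 N := by
    intro N
    induction N with
    | zero => simp [SN]
    | succ N ih =>
      have hr := hrec N
      have s1 : SN k (N + 1) = SN k N + xc (N + k) := by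
        unfold SN; rw [Finset.sum_range_succ]
      have s2 : SN 0 (N + 1) = SN 0 N + xc N := by
        unfold SN; rw [Finset.sum_range_succ, add_zero]
      rw [s1, s2]
      linear_combination hr + ih
  obtain ⟨C, hCb⟩ := SN_bd k
  set W : ℝ := ‖B‖ ^ 2 * om (-k) + 1 with hW
  have hb : ∀ n : ℤ, ‖co (B (eb n)) (n + k)‖ ≤ W := by
    intro n
    have := eps_bd hA hC hO B k n
    have h0 := norm_nonneg (co (B (eb n)) (n + k))
    nlinarith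
  have hpos : 0 < ‖co (A1 (eb 0)) k - co (A (eb 0)) k‖ := by
    rw [norm_pos_iff, sub_ne_zero]
    exact fun h => hne h.symm
  obtain ⟨N, hN⟩ := SN_unb ((2 * W + ‖co (A1 (eb 0)) k‖ * C) /
    ‖co (A1 (eb 0)) k - co (A (eb 0)) k‖)
  rw [div_lt_iff₀ hpos] at hN
  have key : (co (A1 (eb 0)) k - co (A (eb 0)) k) * SN 0 N =
      (co (B (eb N)) (N + k) - co (B (eb 0)) k) - co (A1 (eb 0)) k * (SN k N - SN 0 N) := by
    linear_combination -(sm N)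
  have hn := congrArg norm key
  rw [norm_mul] at hn
  have b1 := norm_sub_le (co (B (eb N)) (N + k) - co (B (eb 0)) k)
    (co (A1 (eb 0)) k * (SN k N - SN 0 N))
  have b2 := norm_sub_le (co (B (eb N)) (N + k)) (co (B (eb 0)) k)
  have b3 := hb N
  have b4 := hb 0
  rw [zero_add] at b4
  have b5 : ‖co (A1 (eb 0)) k * (SN k N - SN 0 N)‖ ≤ ‖co (A1 (eb 0)) k‖ * C := by
    rw [norm_mul]
    exact mul_le_mul_of_nonneg_left (hCb N) (norm_nonneg _)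
  rw [mul_comm] at hN
  linarith

end

lemma pres (hG : S_GRO) (D : E2 →L[ℂ] E2) (h : D * T = T * D) (x : E2) (hx : x.snd = 0) :
    (D x).snd = 0 := by
  obtain ⟨C, hC⟩ := (hG x).1 hx
  apply (hG (D x)).2
  refine ⟨‖D‖ ^ 2 * C, fun N => ?_⟩
  have hc : D * T ^ N = T ^ N * D := ((show Commute D T from h).pow_right N).eq
  have e : (T ^ N) (D x) = D ((T ^ N) x) :=
    (congrArg (fun L : E2 →L[ℂ] E2 => L x) hc).symm
  rw [e]
  calc ‖D ((T ^ N) x)‖ ^ 2 ≤ (‖D‖ * ‖(T ^ N) x‖) ^ 2 :=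
        pow_le_pow_left₀ (norm_nonneg _) (D.le_opNorm _) 2
    _ = ‖D‖ ^ 2 * ‖(T ^ N) x‖ ^ 2 := by ring
    _ ≤ ‖D‖ ^ 2 * (C * om N) := mul_le_mul_of_nonneg_left (hC N) (by positivity)
    _ = ‖D‖ ^ 2 * C * om N := by ring

/-- WHH-COM: the commutant of `T` -/
theorem com (hG : S_GRO) (hA : S_OPA) (hC : S_OPC) (hB : S_BLA) (hO : S_OM) : S_COM := by
  intro D hD
  have hDi : ((D⁻¹ : (E2 →L[ℂ] E2)ˣ) : E2 →L[ℂ] E2) * T =
      T * ((D⁻¹ : (E2 →L[ℂ] E2)ˣ) : E2 →L[ℂ] E2) :=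
    ((show Commute (D : E2 →L[ℂ] E2) T from hD).units_inv_left).eq
  obtain ⟨A, B, A1, hD1⟩ := hB.2.2.2.2.2.2 _ (pres hG _ hD)
  obtain ⟨A', B', A1', hD1'⟩ := hB.2.2.2.2.2.2 _ (pres hG _ hDi)
  have hT : T = blk Z X Z := rfl
  rw [hD1, hT, hB.1, hB.1] at hD
  obtain ⟨h1, h2, h3⟩ := hB.2.2.2.2.1 _ _ _ _ _ _ hD
  have hAA : A = A1 := diag_eq hA hC hO A A1 B h1 h3 h2
  subst hAA
  have m1 : (D : E2 →L[ℂ] E2) * ((D⁻¹ : (E2 →L[ℂ] E2)ˣ) : E2 →L[ℂ] E2) = 1 := D.mul_inv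
  have m2 : ((D⁻¹ : (E2 →L[ℂ] E2)ˣ) : E2 →L[ℂ] E2) * (D : E2 →L[ℂ] E2) = 1 := D.inv_mul
  rw [hD1, hD1', hB.1, ← hB.2.1] at m1 m2
  have u1 := (hB.2.2.2.2.1 _ _ _ _ _ _ m1).1
  have u2 := (hB.2.2.2.2.1 _ _ _ _ _ _ m2).1
  exact ⟨⟨A, A', u1, u2⟩, B, hD1⟩

end Pool.Agent.W925.WH.Com
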